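import Pool.Agent.Helper60.SB.Defs5
import Pool.Agent.Helper3.SB.F3

/-!
Module P2b of MP_7fc85e_an: the multivariate building blocks and their weighted square function.
-/

open Finset MeasureTheory
open scoped ENNReal Real
open Pool.Agent.Helper60.SB

namespace Pool.Agent.Helper32.SB

lemma ew_pos (s : ℕ) (z : ℝ) : 0 < ew s z := by
  unfold ew
  positivity

lemma ew_mul_wt (s : ℕ) (z : ℝ) : ew s z * (1 + 2 ^ s * |Real.sin (z / 2)|) = 1 := by
  unfold ew
  have : (1 + 2 ^ s * |Real.sin (z / 2)| : ℝ) ≠ 0 := by positivity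
  field_simp

/-- the one-dimensional estimate -/
lemma one_dim (φ : ℕ → ℕ → ℝ → ℝ) (C r : ℝ)
    (hew : ∀ (s : ℕ) (a b : ℝ), ew s a * ew s b ≤ ew s (a - b))
    (hφ : ∀ (s : ℕ) (t : ℝ), ∑ c ∈ range (2 ^ s),
      (φ s c t * (1 + 2 ^ s * |Real.sin ((t - 2 * π * c / 2 ^ s) / 2)|)) ^ 2 ≤
        C * (2 : ℝ) ^ (2 * r * s)) (s : ℕ) (x y : ℝ) :
    ∑ c : Fin (2 ^ s), |φ s c x * φ s c y| ≤ C * (2 : ℝ) ^ (2 * r * s) * ew s (x - y) := by
  set W : ℕ → ℝ → ℝ := fun c t => 1 + 2 ^ s * |Real.sin ((t - 2 * π * c / 2 ^ s) / 2)| with hW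
  have hWpos : ∀ c t, 0 < W c t := fun c t => by
    simp only [hW]
    positivity
  have h1 : ∀ c : ℕ, |φ s c x * φ s c y| ≤
      (((φ s c x * W c x) ^ 2 + (φ s c y * W c y) ^ 2) / 2) * ew s (x - y) := by
    intro c
    have e1 := ew_mul_wt s (x - 2 * π * c / 2 ^ s)
    have e2 := ew_mul_wt s (y - 2 * π * c / 2 ^ s)
    have e3 := hew s (x - 2 * π * c / 2 ^ s) (y - 2 * π * c / 2 ^ s)
    rw [show x - 2 * π * c / 2 ^ s - (y - 2 * π * c / 2 ^ s) = x - y by ring] at e3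
    set p := ew s (x - 2 * π * c / 2 ^ s) with hp
    set q := ew s (y - 2 * π * c / 2 ^ s) with hq
    have e1' : p * W c x = 1 := e1
    have e2' : q * W c y = 1 := e2
    have h2 : φ s c x * φ s c y = (φ s c x * W c x) * (φ s c y * W c y) * (p * q) := by
      calc φ s c x * φ s c y = φ s c x * φ s c y * (p * W c x) * (q * W c y) := by
            rw [e1', e2']
            ring
        _ = _ := by ring
    rw [h2, abs_mul]
    have h3 : |p * q| ≤ ew s (x - y) := by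
      rw [abs_of_pos (mul_pos (ew_pos _ _) (ew_pos _ _))]
      exact e3
    have h4 : |φ s c x * W c x * (φ s c y * W c y)| ≤
        ((φ s c x * W c x) ^ 2 + (φ s c y * W c y) ^ 2) / 2 := by
      rw [abs_le]
      constructor <;>
        nlinarith [sq_nonneg (φ s c x * W c x + φ s c y * W c y),
          sq_nonneg (φ s c x * W c x - φ s c y * W c y)]
    exact mul_le_mul h4 h3 (abs_nonneg _) (by positivity)
  calc ∑ c : Fin (2 ^ s), |φ s c x * φ s c y| = ∑ c ∈ range (2 ^ s), |φ s c x * φ s c y| :=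
        (Finset.sum_range fun c => |φ s c x * φ s c y|).symm
    _ ≤ ∑ c ∈ range (2 ^ s), (((φ s c x * W c x) ^ 2 + (φ s c y * W c y) ^ 2) / 2) *
          ew s (x - y) := Finset.sum_le_sum fun c _ => h1 c
    _ = ((∑ c ∈ range (2 ^ s), (φ s c x * W c x) ^ 2 +
          ∑ c ∈ range (2 ^ s), (φ s c y * W c y) ^ 2) / 2) * ew s (x - y) := by
        rw [← Finset.sum_mul, ← Finset.sum_div, Finset.sum_add_distrib]
    _ ≤ ((C * (2 : ℝ) ^ (2 * r * s) + C * (2 : ℝ) ^ (2 * r * s)) / 2) * ew s (x - y) := by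
        apply mul_le_mul_of_nonneg_right _ (ew_pos _ _).le
        have := hφ s x
        have := hφ s y
        gcongr
    _ = _ := by ring

theorem exists_boxfun (e : ℕ) (u : ℝ → ℝ) (r : ℝ)
    (huni : ∃ (φ : ℕ → ℕ → ℝ → ℝ) (C : ℝ), 0 < C ∧ (∀ s c, Continuous (φ s c)) ∧
      (∀ s c x, φ s c (x + 2 * π) = φ s c x) ∧
      (∀ s c, c < 2 ^ s → ∀ x, ∫ y, bern r r (x - y) * φ s c y ∂tor1 = ub u s c x) ∧
      (∀ (s : ℕ) (t : ℝ), ∑ c ∈ range (2 ^ s),
        (φ s c t * (1 + 2 ^ s * |Real.sin ((t - 2 * π * c / 2 ^ s) / 2)|)) ^ 2 ≤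
          C * (2 : ℝ) ^ (2 * r * s)))
    (hew : ∀ (s : ℕ) (a b : ℝ), ew s a * ew s b ≤ ew s (a - b)) :
    ∃ (v : (m : ℕ) → Box e m → (Fin (e + 2) → ℝ) → ℝ) (C : ℝ), 1 ≤ C ∧
      (∀ m R, Continuous (v m R)) ∧
      (∀ m R x j, v m R (Function.update x j (x j + 2 * π)) = v m R x) ∧
      (∀ m (R : Box e m) x, ∫ y, Fker r (x - y) * v m R y ∂(tor (e + 2)) =
        (2 : ℝ) ^ (-(r * (((e : ℝ) + 2) * m))) * bxp u R x) ∧
      (∀ m (t : Fin (e + 1) → Fin m) x y,
        ∑ c : ((j : Fin (e + 2)) → Fin (2 ^ shp e m t j)), |v m ⟨t, c⟩ x * v m ⟨t, c⟩ y| ≤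
          C * ∏ j, ew (shp e m t j) (x j - y j)) := by
  obtain ⟨φ, C, hC, hφc, hφp, hφ1, hφ2⟩ := huni
  refine ⟨fun m R x => (2 : ℝ) ^ (-(r * (((e : ℝ) + 2) * m))) * Helper3.SB.phR φ R x,
    max 1 (C ^ (e + 2)), le_max_left _ _, ?_, ?_, ?_, ?_⟩
  · intro m R
    exact continuous_const.mul (Helper3.SB.continuous_phR φ hφc R)
  · intro m R x j
    dsimp only
    congr 1
    unfold Helper3.SB.phR
    apply Finset.prod_congr rfl
    intro i _
    by_cases hij : i = j
    · subst hij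
      rw [Function.update_self]
      exact hφp _ _ _
    · rw [Function.update_of_ne hij]
  · intro m R x
    dsimp only
    rw [← Helper3.SB.conv_phR u φ r hφ1 R x, ← integral_const_mul]
    apply integral_congr_ae
    filter_upwards with y
    ring
  · intro m t x y
    dsimp only
    set κ : ℝ := (2 : ℝ) ^ (-(r * (((e : ℝ) + 2) * m))) with hκ
    have hκ0 : 0 < κ := by positivity
    have h1 : ∀ c : ((j : Fin (e + 2)) → Fin (2 ^ shp e m t j)),
        |κ * Helper3.SB.phR φ ⟨t, c⟩ x * (κ * Helper3.SB.phR φ ⟨t, c⟩ y)| =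
        κ ^ 2 * ∏ j, |φ (shp e m t j) (c j) (x j) * φ (shp e m t j) (c j) (y j)| := by
      intro c
      rw [show κ * Helper3.SB.phR φ ⟨t, c⟩ x * (κ * Helper3.SB.phR φ ⟨t, c⟩ y) =
        κ ^ 2 * (Helper3.SB.phR φ ⟨t, c⟩ x * Helper3.SB.phR φ ⟨t, c⟩ y) by ring, abs_mul,
        abs_of_pos (by positivity : (0:ℝ) < κ ^ 2)]
      congr 1
      unfold Helper3.SB.phR
      rw [← Finset.prod_mul_distrib, Finset.abs_prod]
    simp_rw [h1]
    rw [← Finset.mul_sum]
    have h2 : ∑ c : ((j : Fin (e + 2)) → Fin (2 ^ shp e m t j)),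
        ∏ j, |φ (shp e m t j) (c j) (x j) * φ (shp e m t j) (c j) (y j)| =
        ∏ j : Fin (e + 2), ∑ c : Fin (2 ^ shp e m t j),
          |φ (shp e m t j) c (x j) * φ (shp e m t j) c (y j)| := by
      rw [Finset.prod_univ_sum, Fintype.piFinset_univ]
    rw [h2]
    have h3 : ∏ j : Fin (e + 2), ∑ c : Fin (2 ^ shp e m t j),
          |φ (shp e m t j) c (x j) * φ (shp e m t j) c (y j)| ≤
        ∏ j : Fin (e + 2), (C * (2 : ℝ) ^ (2 * r * (shp e m t j : ℕ)) *
          ew (shp e m t j) (x j - y j)) := by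
      apply Finset.prod_le_prod
      · intro j _
        exact Finset.sum_nonneg fun c _ => abs_nonneg _
      · intro j _
        exact one_dim φ C r hew hφ2 _ _ _
    have h4 : ∏ j : Fin (e + 2), (C * (2 : ℝ) ^ (2 * r * (shp e m t j : ℕ)) *
          ew (shp e m t j) (x j - y j)) =
        C ^ (e + 2) * (κ ^ 2)⁻¹ * ∏ j, ew (shp e m t j) (x j - y j) := by
      rw [Finset.prod_mul_distrib, Finset.prod_mul_distrib, Finset.prod_const, Finset.card_univ,
        Fintype.card_fin]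
      congr 2
      rw [← Real.rpow_sum_of_pos (by norm_num : (0:ℝ) < 2), ← Finset.mul_sum, ← Nat.cast_sum,
        Helper96.SB.sum_shp, hκ, ← Real.rpow_natCast, ← Real.rpow_mul (by norm_num),
        ← Real.rpow_neg (by norm_num)]
      congr 1
      push_cast
      ring
    calc κ ^ 2 * ∏ j : Fin (e + 2), ∑ c : Fin (2 ^ shp e m t j),
          |φ (shp e m t j) c (x j) * φ (shp e m t j) c (y j)| ≤
        κ ^ 2 * (C ^ (e + 2) * (κ ^ 2)⁻¹ * ∏ j, ew (shp e m t j) (x j - y j)) := by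
          rw [← h4]
          exact mul_le_mul_of_nonneg_left h3 (by positivity)
      _ = C ^ (e + 2) * ∏ j, ew (shp e m t j) (x j - y j) := by
          field_simp
      _ ≤ _ := by
          apply mul_le_mul_of_nonneg_right (le_max_right _ _)
          exact Finset.prod_nonneg fun j _ => (ew_pos _ _).le

end Pool.Agent.Helper32.SB
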